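import Mathlib

open Finset Nat

namespace Pool.Agent.Work.Sieve

theorem prod_one_sub_sq (K : ℕ) (hK : 1 ≤ K) :
    ∏ k ∈ Finset.Icc 2 K, (1 - 1 / (k : ℝ) ^ 2) = ((K : ℝ) + 1) / (2 * K) := by
  induction K, hK using Nat.le_induction with
  | base => simp
  | succ n hn ih =>
    rw [← Finset.insert_Icc_right_eq_Icc_add_one (by omega), Finset.prod_insert (by simp), ih]
    have h1 : (0 : ℝ) < n := by exact_mod_cast hn
    push_cast
    field_simp
    ring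

theorem half_le_prod (s : Finset ℕ) (hs : ∀ p ∈ s, 2 ≤ p) :
    (1 : ℝ) / 2 ≤ ∏ p ∈ s, (1 - 1 / (p : ℝ) ^ 2) := by
  obtain ⟨K, hK⟩ : ∃ K : ℕ, 1 ≤ K ∧ s ⊆ Finset.Icc 2 K := by
    refine ⟨s.sup id + 1, by omega, ?_⟩
    intro p hp
    rw [Finset.mem_Icc]
    exact ⟨hs p hp, (Finset.le_sup (f := id) hp).trans (Nat.le_succ _)⟩
  have h1 := prod_one_sub_sq K hK.1
  have hfac : ∀ k ∈ Finset.Icc 2 K, 0 ≤ (1 - 1 / (k : ℝ) ^ 2) ∧ (1 - 1 / (k : ℝ) ^ 2) ≤ 1 := by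
    intro k hk
    rw [Finset.mem_Icc] at hk
    have h2 : (2 : ℝ) ≤ k := by exact_mod_cast hk.1
    have h3 : (1 : ℝ) / (k : ℝ) ^ 2 ≤ 1 := by
      rw [div_le_one (by positivity)]
      nlinarith
    have h4 : (0 : ℝ) ≤ 1 / (k : ℝ) ^ 2 := by positivity
    constructor <;> linarith
  have h2 : ∏ k ∈ Finset.Icc 2 K, (1 - 1 / (k : ℝ) ^ 2) ≤ ∏ p ∈ s, (1 - 1 / (p : ℝ) ^ 2) := by
    rw [← Finset.prod_sdiff hK.2]
    have h3 : ∏ k ∈ Finset.Icc 2 K \ s, (1 - 1 / (k : ℝ) ^ 2) ≤ 1 :=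
      Finset.prod_le_one (fun k hk => (hfac k (Finset.mem_sdiff.mp hk).1).1)
        (fun k hk => (hfac k (Finset.mem_sdiff.mp hk).1).2)
    have h4 : 0 ≤ ∏ p ∈ s, (1 - 1 / (p : ℝ) ^ 2) :=
      Finset.prod_nonneg (fun k hk => (hfac k (hK.2 hk)).1)
    calc _ ≤ 1 * ∏ p ∈ s, (1 - 1 / (p : ℝ) ^ 2) := by gcongr
      _ = _ := one_mul _
  refine le_trans ?_ h2
  rw [h1]
  have h3 : (0 : ℝ) < K := by exact_mod_cast hK.1
  rw [div_le_div_iff₀ (by norm_num) (by positivity)]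
  linarith

/-- `m / φ(m) ≤ 2 ∑_{d ∣ m} 1/d` -/
theorem div_totient_le {m : ℕ} (hm : m ≠ 0) :
    (m : ℝ) / (Nat.totient m : ℝ) ≤ 2 * ∑ d ∈ m.divisors, (1 : ℝ) / d := by
  have hmr : (0 : ℝ) < m := by exact_mod_cast Nat.pos_of_ne_zero hm
  have hpr : ∀ p ∈ m.primeFactors, (2 : ℝ) ≤ p := fun p hp => by
    exact_mod_cast (Nat.prime_of_mem_primeFactors hp).two_le
  have h1 : (Nat.totient m : ℝ) = m * ∏ p ∈ m.primeFactors, (1 - (1 : ℝ) / p) := by
    have h2 := Nat.totient_eq_mul_prod_factors m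
    have := congrArg (fun q : ℚ => (q : ℝ)) h2
    push_cast at this
    simpa [one_div] using this
  have hpos1 : 0 < ∏ p ∈ m.primeFactors, (1 - (1 : ℝ) / p) := by
    apply Finset.prod_pos
    intro p hp
    have := hpr p hp
    have : (1 : ℝ) / p ≤ 1 / 2 := by gcongr
    linarith
  have h3 : ∏ p ∈ m.primeFactors, (1 + (1 : ℝ) / p) ≤ ∑ d ∈ m.divisors, (1 : ℝ) / d := by
    rw [Finset.prod_one_add]
    have hinj : Set.InjOn (fun t : Finset ℕ => ∏ p ∈ t, p) (m.primeFactors.powerset : Set (Finset ℕ)) := by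
      intro t ht u hu htu
      simp only [Finset.coe_powerset, Set.mem_preimage, Set.mem_powerset_iff, Finset.coe_subset] at ht hu
      simp only at htu
      rw [← Nat.primeFactors_prod (s := t) (fun p hp => Nat.prime_of_mem_primeFactors (ht hp)),
        ← Nat.primeFactors_prod (s := u) (fun p hp => Nat.prime_of_mem_primeFactors (hu hp)), htu]
    have h4 : ∑ t ∈ m.primeFactors.powerset, ∏ p ∈ t, (1 : ℝ) / p =
        ∑ d ∈ m.primeFactors.powerset.image (fun t : Finset ℕ => ∏ p ∈ t, p), (1 : ℝ) / d := by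
      rw [Finset.sum_image hinj]
      apply Finset.sum_congr rfl
      intro t _
      push_cast
      rw [Finset.prod_div_distrib, Finset.prod_const_one]
    rw [h4]
    apply Finset.sum_le_sum_of_subset_of_nonneg
    · intro d hd
      rw [Finset.mem_image] at hd
      obtain ⟨t, ht, rfl⟩ := hd
      rw [Finset.mem_powerset] at ht
      rw [Nat.mem_divisors]
      exact ⟨(Finset.prod_dvd_prod_of_subset _ _ _ ht).trans (Nat.prod_primeFactors_dvd m), hm⟩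
    · intro d _ _
      positivity
  have h5 : (∏ p ∈ m.primeFactors, (1 - (1 : ℝ) / p)) * ∏ p ∈ m.primeFactors, (1 + (1 : ℝ) / p)
      = ∏ p ∈ m.primeFactors, (1 - 1 / (p : ℝ) ^ 2) := by
    rw [← Finset.prod_mul_distrib]
    apply Finset.prod_congr rfl
    intro p hp
    have := hpr p hp
    field_simp
    ring
  have h6 := half_le_prod m.primeFactors (fun p hp => (Nat.prime_of_mem_primeFactors hp).two_le)
  rw [h1]
  have h7 : (m : ℝ) / (m * ∏ p ∈ m.primeFactors, (1 - (1 : ℝ) / p)) =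
      1 / ∏ p ∈ m.primeFactors, (1 - (1 : ℝ) / p) := by
    field_simp
  rw [h7, div_le_iff₀ hpos1]
  have h8 : 0 ≤ ∑ d ∈ m.divisors, (1 : ℝ) / d := Finset.sum_nonneg (fun d _ => by positivity)
  rw [← h5] at h6
  nlinarith [mul_le_mul_of_nonneg_left h3 hpos1.le]

theorem sum_inv_sqrt_cube (D : ℕ) (hD : 1 ≤ D) :
    ∑ d ∈ Finset.Icc 1 D, (1 : ℝ) / (d * √d) ≤ 3 - 2 / √D := by
  induction D, hD using Nat.le_induction with
  | base => simp; norm_num
  | succ n hn ih =>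
    rw [← Finset.insert_Icc_right_eq_Icc_add_one (by omega), Finset.sum_insert (by simp)]
    have h1 : (0 : ℝ) < n := by exact_mod_cast hn
    set a : ℝ := √(n : ℝ) with ha
    set b : ℝ := √((n : ℝ) + 1) with hb
    have ha0 : 0 < a := Real.sqrt_pos.mpr h1
    have hb0 : 0 < b := Real.sqrt_pos.mpr (by linarith)
    have hab : a ≤ b := Real.sqrt_le_sqrt (by linarith)
    have ha2 : a ^ 2 = n := Real.sq_sqrt h1.le
    have hb2 : b ^ 2 = (n : ℝ) + 1 := Real.sq_sqrt (by linarith)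
    have hkey : (1 : ℝ) / (((n + 1 : ℕ) : ℝ) * √((n + 1 : ℕ) : ℝ)) ≤ 2 / a - 2 / b := by
      push_cast
      rw [← hb, ← hb2, div_sub_div _ _ ha0.ne' hb0.ne', div_le_div_iff₀ (by positivity) (by positivity)]
      have hd : b ^ 2 - a ^ 2 = 1 := by rw [ha2, hb2]; ring
      nlinarith [mul_nonneg (sub_nonneg.mpr hab) (mul_pos hb0 hb0).le,
        mul_nonneg (mul_nonneg (sub_nonneg.mpr hab) (sub_nonneg.mpr hab)) hb0.le,
        mul_pos (mul_pos ha0 hb0) hb0, mul_pos ha0 hb0]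
    have hb' : √((n + 1 : ℕ) : ℝ) = b := by push_cast; rfl
    rw [hb'] at hkey ⊢
    linarith

theorem sum_inv_sqrt_cube_le (D : ℕ) : ∑ d ∈ Finset.Icc 1 D, (1 : ℝ) / (d * √d) ≤ 3 := by
  rcases Nat.eq_zero_or_pos D with h | h
  · subst h; simp
  · have := sum_inv_sqrt_cube D h
    have h2 : 0 ≤ 2 / √(D : ℝ) := by positivity
    linarith

theorem sum_sq_sum_divisors_le (M : ℕ) :
    ∑ m ∈ Finset.Icc 1 M, (∑ d ∈ m.divisors, (1 : ℝ) / d) ^ 2 ≤ 9 * M := by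
  have h1 : ∀ m ∈ Finset.Icc 1 M, (∑ d ∈ m.divisors, (1 : ℝ) / d) ^ 2 =
      ∑ d ∈ Finset.Icc 1 M, ∑ e ∈ Finset.Icc 1 M,
        if d ∣ m ∧ e ∣ m then (1 : ℝ) / d * (1 / e) else 0 := by
    intro m hm
    rw [Finset.mem_Icc] at hm
    have hdiv : m.divisors = (Finset.Icc 1 M).filter (fun d => d ∣ m) := by
      ext d
      simp only [Nat.mem_divisors, Finset.mem_filter, Finset.mem_Icc]
      constructor
      · rintro ⟨h1, h2⟩
        exact ⟨⟨Nat.pos_of_dvd_of_pos h1 (by omega), (Nat.le_of_dvd (by omega) h1).trans hm.2⟩, h1⟩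
      · rintro ⟨_, h2⟩
        exact ⟨h2, by omega⟩
    rw [pow_two, hdiv, Finset.sum_mul_sum, Finset.sum_filter]
    apply Finset.sum_congr rfl
    intro d _
    split_ifs with hd
    · rw [Finset.sum_filter]
      apply Finset.sum_congr rfl
      intro e _
      simp [hd]
    · symm
      apply Finset.sum_eq_zero
      intro e _
      simp [hd]
  rw [Finset.sum_congr rfl h1, Finset.sum_comm]
  have h2 : ∀ d ∈ Finset.Icc 1 M, (∑ m ∈ Finset.Icc 1 M, ∑ e ∈ Finset.Icc 1 M,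
        if d ∣ m ∧ e ∣ m then (1 : ℝ) / d * (1 / e) else 0) ≤
      ∑ e ∈ Finset.Icc 1 M, (M : ℝ) * ((1 : ℝ) / (d * √d) * (1 / (e * √e))) := by
    intro d hd
    rw [Finset.sum_comm]
    apply Finset.sum_le_sum
    intro e he
    rw [Finset.mem_Icc] at hd he
    rw [← Finset.sum_filter, Finset.sum_const, nsmul_eq_mul]
    have hd0 : (0 : ℝ) < d := by exact_mod_cast hd.1
    have he0 : (0 : ℝ) < e := by exact_mod_cast he.1
    have hlpos : 0 < Nat.lcm d e := Nat.lcm_pos hd.1 he.1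
    have hcard : (((Finset.Icc 1 M).filter (fun m => d ∣ m ∧ e ∣ m)).card : ℝ) ≤
        (M : ℝ) / (Nat.lcm d e : ℝ) := by
      have h3 : (Finset.Icc 1 M).filter (fun m => d ∣ m ∧ e ∣ m) =
          (Finset.Ioc 0 M).filter (fun m => Nat.lcm d e ∣ m) := by
        ext m
        simp only [Finset.mem_filter, Finset.mem_Icc, Finset.mem_Ioc, Nat.lcm_dvd_iff]
        constructor
        · rintro ⟨⟨h1, h2⟩, h3⟩; exact ⟨⟨by omega, h2⟩, h3⟩
        · rintro ⟨⟨h1, h2⟩, h3⟩; exact ⟨⟨by omega, h2⟩, h3⟩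
      rw [h3, Nat.Ioc_filter_dvd_card_eq_div]
      exact Nat.cast_div_le
    have hl : √(d : ℝ) * √(e : ℝ) ≤ (Nat.lcm d e : ℝ) := by
      have h4 : (d : ℝ) ≤ (Nat.lcm d e : ℝ) := by
        exact_mod_cast Nat.le_of_dvd hlpos (Nat.dvd_lcm_left d e)
      have h5 : (e : ℝ) ≤ (Nat.lcm d e : ℝ) := by
        exact_mod_cast Nat.le_of_dvd hlpos (Nat.dvd_lcm_right d e)
      calc √(d : ℝ) * √(e : ℝ) ≤ √(Nat.lcm d e : ℝ) * √(Nat.lcm d e : ℝ) := by
            gcongr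
        _ = (Nat.lcm d e : ℝ) := Real.mul_self_sqrt (by positivity)
    have hsd : 0 < √(d : ℝ) := Real.sqrt_pos.mpr hd0
    have hse : 0 < √(e : ℝ) := Real.sqrt_pos.mpr he0
    calc (((Finset.Icc 1 M).filter (fun m => d ∣ m ∧ e ∣ m)).card : ℝ) * ((1 : ℝ) / d * (1 / e))
        ≤ ((M : ℝ) / (Nat.lcm d e : ℝ)) * ((1 : ℝ) / d * (1 / e)) := by gcongr
      _ ≤ ((M : ℝ) / (√(d : ℝ) * √(e : ℝ))) * ((1 : ℝ) / d * (1 / e)) := by gcongr
      _ = _ := by field_simp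
  refine (Finset.sum_le_sum h2).trans ?_
  have h3 : ∑ d ∈ Finset.Icc 1 M, ∑ e ∈ Finset.Icc 1 M,
      (M : ℝ) * ((1 : ℝ) / (d * √d) * (1 / (e * √e))) =
      (M : ℝ) * ((∑ d ∈ Finset.Icc 1 M, (1 : ℝ) / (d * √d)) *
        (∑ e ∈ Finset.Icc 1 M, (1 : ℝ) / (e * √e))) := by
    rw [Finset.sum_mul_sum, Finset.mul_sum]
    apply Finset.sum_congr rfl
    intro d _
    rw [Finset.mul_sum]
  rw [h3]
  have h4 := sum_inv_sqrt_cube_le M
  have h5 : 0 ≤ ∑ d ∈ Finset.Icc 1 M, (1 : ℝ) / (d * √d) :=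
    Finset.sum_nonneg (fun d _ => by positivity)
  calc (M : ℝ) * ((∑ d ∈ Finset.Icc 1 M, (1 : ℝ) / (d * √d)) *
        (∑ e ∈ Finset.Icc 1 M, (1 : ℝ) / (e * √e))) ≤ (M : ℝ) * (3 * 3) := by gcongr
    _ = 9 * M := by ring

/-- mean square of `m / φ(m)` -/
theorem sum_sq_div_totient_le (M : ℕ) :
    ∑ m ∈ Finset.Icc 1 M, ((m : ℝ) / (Nat.totient m : ℝ)) ^ 2 ≤ 36 * M := by
  have h1 : ∀ m ∈ Finset.Icc 1 M, ((m : ℝ) / (Nat.totient m : ℝ)) ^ 2 ≤
      4 * (∑ d ∈ m.divisors, (1 : ℝ) / d) ^ 2 := by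
    intro m hm
    rw [Finset.mem_Icc] at hm
    have h2 := div_totient_le (m := m) (by omega)
    have h3 : 0 ≤ (m : ℝ) / (Nat.totient m : ℝ) := by positivity
    calc ((m : ℝ) / (Nat.totient m : ℝ)) ^ 2 ≤ (2 * ∑ d ∈ m.divisors, (1 : ℝ) / d) ^ 2 := by gcongr
      _ = _ := by ring
  refine (Finset.sum_le_sum h1).trans ?_
  rw [← Finset.mul_sum]
  have := sum_sq_sum_divisors_le M
  linarith

end Pool.Agent.Work.Sieve
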