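import Mathlib

open Finset Nat

namespace Pool.Agent.Work.Sieve

noncomputable section

/-- completely multiplicative function equal to `1` at primes dividing `k` and `2` at the others -/
def fk (k m : ℕ) : ℕ := m.factorization.prod fun p e => (if p ∣ k then 1 else 2) ^ e

theorem fk_one (k : ℕ) : fk k 1 = 1 := by simp [fk]

theorem fk_mul (k : ℕ) {m n : ℕ} (hm : m ≠ 0) (hn : n ≠ 0) : fk k (m * n) = fk k m * fk k n := by
  unfold fk
  rw [Nat.factorization_mul hm hn, Finsupp.prod_add_index']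
  · intro p; simp
  · intro p e1 e2; rw [pow_add]

theorem fk_prime (k : ℕ) {p : ℕ} (hp : p.Prime) : fk k p = if p ∣ k then 1 else 2 := by
  unfold fk
  rw [hp.factorization, Finsupp.prod_single_index] <;> simp

theorem fk_pos (k m : ℕ) : 0 < fk k m := by
  unfold fk
  apply Finset.prod_pos
  intro p _
  positivity

/-- number of divisors coprime to `k` -/
def ck (k m : ℕ) : ℕ := (m.divisors.filter (fun d => Nat.Coprime d k)).card

theorem ck_mul_le (k m n : ℕ) : ck k (m * n) ≤ ck k m * ck k n := by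
  unfold ck
  have h : ((m * n).divisors.filter (fun d => Nat.Coprime d k)) ⊆
      ((m.divisors.filter (fun d => Nat.Coprime d k)) ×ˢ
       (n.divisors.filter (fun d => Nat.Coprime d k))).image (fun x => x.1 * x.2) := by
    intro d hd
    rw [Finset.mem_filter, Nat.divisors_mul, Finset.mem_mul] at hd
    obtain ⟨⟨d1, h1, d2, h2, rfl⟩, hc⟩ := hd
    rw [Finset.mem_image]
    refine ⟨(d1, d2), ?_, rfl⟩
    rw [Finset.mem_product, Finset.mem_filter, Finset.mem_filter]
    exact ⟨⟨h1, Nat.Coprime.coprime_mul_right hc⟩, ⟨h2, Nat.Coprime.coprime_mul_left hc⟩⟩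
  calc _ ≤ _ := Finset.card_le_card h
    _ ≤ _ := Finset.card_image_le
    _ = _ := Finset.card_product _ _

theorem ck_le_fk (k : ℕ) {m : ℕ} (hm : m ≠ 0) : ck k m ≤ fk k m := by
  induction m using Nat.recOnMul with
  | zero => exact absurd rfl hm
  | one => simp [ck, fk_one, Finset.filter_singleton]
  | prime p hp =>
    rw [fk_prime k hp]
    unfold ck
    rw [hp.divisors]
    split_ifs with h
    · have : ({1, p} : Finset ℕ).filter (fun d => Nat.Coprime d k) ⊆ {1} := by
        intro d hd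
        rw [Finset.mem_filter, Finset.mem_insert, Finset.mem_singleton] at hd
        obtain ⟨h1 | h1, h2⟩ := hd
        · simp [h1]
        · exfalso
          rw [h1, Nat.Prime.coprime_iff_not_dvd hp] at h2
          exact h2 h
      exact (Finset.card_le_card this).trans (by simp)
    · exact (Finset.card_filter_le _ _).trans (Finset.card_le_two)
  | mul a b iha ihb =>
    have ha : a ≠ 0 := left_ne_zero_of_mul hm
    have hb : b ≠ 0 := right_ne_zero_of_mul hm
    rw [fk_mul k ha hb]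
    exact (ck_mul_le k a b).trans (Nat.mul_le_mul (iha ha) (ihb hb))

/-- the completely multiplicative function `fk k m / m` -/
def Fk (k : ℕ) : ℕ →* ℝ where
  toFun m := (fk k m : ℝ) / m
  map_one' := by simp [fk_one]
  map_mul' m n := by
    by_cases hm : m = 0
    · simp [hm]
    by_cases hn : n = 0
    · simp [hn]
    rw [fk_mul k hm hn]
    push_cast
    field_simp

theorem Fk_apply (k m : ℕ) : Fk k m = (fk k m : ℝ) / m := rfl

theorem Fk_nonneg (k m : ℕ) : 0 ≤ Fk k m := by
  rw [Fk_apply]; positivity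

theorem Fk_prime (k : ℕ) {p : ℕ} (hp : p.Prime) :
    Fk k p = if p ∣ k then (1 : ℝ) / p else 2 / p := by
  rw [Fk_apply, fk_prime k hp]
  split_ifs <;> simp

theorem Fk_prime_lt_one {k : ℕ} (hk : Even k) {p : ℕ} (hp : p.Prime) : Fk k p < 1 := by
  rw [Fk_prime k hp]
  have hp2 : 2 ≤ p := hp.two_le
  have hp0 : (0 : ℝ) < p := by exact_mod_cast hp.pos
  split_ifs with h
  · rw [div_lt_one hp0]
    exact_mod_cast hp.one_lt
  · rw [div_lt_one hp0]
    have : p ≠ 2 := by
      rintro rfl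
      exact h hk.two_dvd
    have : 2 < p := lt_of_le_of_ne hp2 (Ne.symm this)
    exact_mod_cast this

/-- sum over numbers with a prescribed set of prime factors -/
theorem sum_primeFactors_eq_le {k : ℕ} (hk : Even k) {l : ℕ} (hl : Squarefree l) (T : Finset ℕ)
    (hT : ∀ m ∈ T, m ≠ 0 ∧ m.primeFactors = l.primeFactors) :
    ∑ m ∈ T, Fk k m ≤ Fk k l * ∏ p ∈ l.primeFactors, (1 - Fk k p)⁻¹ := by
  have hl0 : l ≠ 0 := hl.ne_zero
  obtain ⟨hsum, hhas⟩ := EulerProduct.summable_and_hasSum_factoredNumbers_prod_filter_prime_geometric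
    (f := Fk k) (fun {p} hp => by
      rw [Real.norm_of_nonneg (Fk_nonneg k p)]; exact Fk_prime_lt_one hk hp) l.primeFactors
  have hfilter : l.primeFactors.filter Nat.Prime = l.primeFactors := by
    apply Finset.filter_true_of_mem
    intro p hp
    exact Nat.prime_of_mem_primeFactors hp
  rw [hfilter] at hhas
  have hind := (hasSum_subtype_iff_indicator.mp hhas)
  have hdvd : ∀ m ∈ T, l ∣ m := by
    intro m hm
    obtain ⟨hm0, hmp⟩ := hT m hm
    have h1 : ∏ p ∈ l.primeFactors, p = l := Nat.prod_primeFactors_of_squarefree hl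
    rw [← h1, ← hmp]
    exact Nat.prod_primeFactors_dvd m
  have h1 : ∑ m ∈ T, Fk k m = Fk k l * ∑ m ∈ T, Fk k (m / l) := by
    rw [Finset.mul_sum]
    apply Finset.sum_congr rfl
    intro m hm
    rw [← map_mul, Nat.mul_div_cancel' (hdvd m hm)]
  rw [h1]
  apply mul_le_mul_of_nonneg_left _ (Fk_nonneg k l)
  have hinj : Set.InjOn (fun m => m / l) (T : Set ℕ) := by
    intro x hx y hy hxy
    simp only at hxy
    rw [← Nat.div_mul_cancel (hdvd x hx), ← Nat.div_mul_cancel (hdvd y hy), hxy]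
  have h2 : ∑ m ∈ T, Fk k (m / l) = ∑ m ∈ T.image (fun m => m / l),
      Set.indicator (Nat.factoredNumbers l.primeFactors) (fun m => Fk k m) m := by
    rw [Finset.sum_image hinj]
    apply Finset.sum_congr rfl
    intro m hm
    rw [Set.indicator_of_mem]
    obtain ⟨hm0, hmp⟩ := hT m hm
    apply Nat.mem_factoredNumbers_of_primeFactors_subset
    · exact (Nat.div_pos (Nat.le_of_dvd (Nat.pos_of_ne_zero hm0) (hdvd m hm))
        (Nat.pos_of_ne_zero hl0)).ne'
    · rw [← hmp]
      exact Nat.primeFactors_mono (Nat.div_dvd_of_dvd (hdvd m hm)) hm0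
  rw [h2]
  apply sum_le_hasSum _ _ hind
  intro m _
  apply Set.indicator_nonneg
  intro m _
  exact Fk_nonneg k m

/-- lower bound for the Selberg sum by the completely multiplicative sum -/
theorem sum_Fk_le {k : ℕ} (hk : Even k) (Z : ℕ) :
    ∑ m ∈ Finset.Icc 1 Z, Fk k m ≤
      ∑ l ∈ (primorial Z).divisors.filter (fun l => l ≤ Z),
        Fk k l * ∏ p ∈ l.primeFactors, (1 - Fk k p)⁻¹ := by
  have hmaps : ∀ m ∈ Finset.Icc 1 Z, (∏ p ∈ m.primeFactors, p) ∈
      (primorial Z).divisors.filter (fun l => l ≤ Z) := by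
    intro m hm
    rw [Finset.mem_Icc] at hm
    have hm0 : m ≠ 0 := by omega
    have hle : (∏ p ∈ m.primeFactors, p) ≤ m :=
      Nat.le_of_dvd (by omega) (Nat.prod_primeFactors_dvd m)
    have hsq : Squarefree (∏ p ∈ m.primeFactors, p) := by
      rw [Nat.squarefree_iff_prime_squarefree]
      intro p hp hpp
      have h1 : (∏ p ∈ m.primeFactors, p) ≠ 0 :=
        Finset.prod_ne_zero_iff.mpr fun q hq => (Nat.prime_of_mem_primeFactors hq).ne_zero
      have h2 : (∏ p ∈ m.primeFactors, p).factorization p ≥ 2 := by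
        have := (hp.pow_dvd_iff_le_factorization (k := 2) h1).mp (by rw [pow_two]; exact hpp)
        exact this
      rw [Nat.factorization_prod (fun q hq => (Nat.prime_of_mem_primeFactors hq).ne_zero),
        Finsupp.finsetSum_apply] at h2
      have h3 : ∑ q ∈ m.primeFactors, q.factorization p ≤ 1 := by
        calc ∑ q ∈ m.primeFactors, q.factorization p
            = ∑ q ∈ m.primeFactors, if q = p then 1 else 0 := by
              apply Finset.sum_congr rfl
              intro q hq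
              rw [(Nat.prime_of_mem_primeFactors hq).factorization, Finsupp.single_apply]
          _ ≤ 1 := by
              rw [Finset.sum_ite_eq']
              split_ifs <;> simp
      omega
    rw [Finset.mem_filter, Nat.mem_divisors]
    refine ⟨⟨?_, primorial_ne_zero Z⟩, hle.trans hm.2⟩
    exact hsq.dvd_primorial.trans (primorial_dvd_primorial (hle.trans hm.2))
  rw [← Finset.sum_fiberwise_of_maps_to hmaps]
  apply Finset.sum_le_sum
  intro l hl
  rw [Finset.mem_filter, Nat.mem_divisors] at hl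
  have hsq : Squarefree l := Squarefree.squarefree_of_dvd hl.1.1 (squarefree_primorial Z)
  apply sum_primeFactors_eq_le hk hsq
  intro m hm
  rw [Finset.mem_filter, Finset.mem_Icc] at hm
  refine ⟨by omega, ?_⟩
  rw [← hm.2, Nat.primeFactors_prod]
  intro p hp
  exact Nat.prime_of_mem_primeFactors hp

theorem sum_ck_div_ge (k : ℕ) (y : ℕ) :
    (∑ d ∈ (Finset.Icc 1 y).filter (fun d => Nat.Coprime d k), (1 : ℝ) / d) *
      (∑ e ∈ Finset.Icc 1 y, (1 : ℝ) / e) ≤ ∑ m ∈ Finset.Icc 1 (y * y), (ck k m : ℝ) / m := by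
  have h1 : ∀ m ∈ Finset.Icc 1 (y * y), (ck k m : ℝ) / m =
      ∑ d ∈ m.divisors.filter (fun d => Nat.Coprime d k), (1 : ℝ) / m := by
    intro m _
    rw [Finset.sum_const, ck, nsmul_eq_mul]
    ring
  rw [Finset.sum_congr rfl h1, Finset.sum_mul_sum, ← Finset.sum_product']
  rw [Finset.sum_sigma']
  set A := (Finset.Icc 1 y).filter (fun d => Nat.Coprime d k) ×ˢ Finset.Icc 1 y with hA
  set B := (Finset.Icc 1 (y * y)).sigma
    (fun m => m.divisors.filter (fun d => Nat.Coprime d k)) with hB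
  have hinj : Set.InjOn (fun x : ℕ × ℕ => (⟨x.1 * x.2, x.1⟩ : (_ : ℕ) × ℕ)) (A : Set (ℕ × ℕ)) := by
    intro x hx w hw hxw
    simp only [hA, Finset.coe_product, Set.mem_prod, Finset.mem_coe, Finset.mem_filter,
      Finset.mem_Icc] at hx hw
    simp only [Sigma.mk.injEq, heq_eq_eq] at hxw
    have h3 : x.2 = w.2 := by
      have := hxw.1
      rw [hxw.2] at this
      exact Nat.eq_of_mul_eq_mul_left (by omega) this
    exact Prod.ext hxw.2 h3
  have h2 : ∑ x ∈ A, (1 : ℝ) / x.1 * (1 / x.2) =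
      ∑ x ∈ A.image (fun x : ℕ × ℕ => (⟨x.1 * x.2, x.1⟩ : (_ : ℕ) × ℕ)), (1 : ℝ) / x.1 := by
    rw [Finset.sum_image hinj]
    apply Finset.sum_congr rfl
    intro x _
    push_cast
    rw [one_div_mul_one_div]
  rw [h2]
  apply Finset.sum_le_sum_of_subset_of_nonneg
  · intro x hx
    rw [Finset.mem_image] at hx
    obtain ⟨w, hw, rfl⟩ := hx
    simp only [hA, Finset.mem_product, Finset.mem_filter, Finset.mem_Icc] at hw
    obtain ⟨⟨⟨h3, h4⟩, h5⟩, h6, h7⟩ := hw
    simp only [hB, Finset.mem_sigma, Finset.mem_Icc, Finset.mem_filter, Nat.mem_divisors]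
    refine ⟨⟨?_, Nat.mul_le_mul h4 h7⟩, ⟨Nat.dvd_mul_right _ _, ?_⟩, h5⟩
    · exact Nat.mul_pos h3 h6
    · exact (Nat.mul_pos h3 h6).ne'
  · intro x _ _
    positivity

theorem prod_mul_harmonic_le (y : ℕ) (s : Finset ℕ) (hs : ∀ p ∈ s, p.Prime) :
    (∏ p ∈ s, (1 - (1 : ℝ) / p)) * (∑ d ∈ Finset.Icc 1 y, (1 : ℝ) / d) ≤
      ∑ d ∈ (Finset.Icc 1 y).filter (fun d => ∀ p ∈ s, ¬ p ∣ d), (1 : ℝ) / d := by
  induction s using Finset.induction_on with
  | empty => simp
  | insert p s hps ih =>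
    have hp : p.Prime := hs p (Finset.mem_insert_self p s)
    have ih' := ih (fun q hq => hs q (Finset.mem_insert_of_mem hq))
    rw [Finset.prod_insert hps]
    have hp1 : (0 : ℝ) ≤ 1 - 1 / p := by
      have : (1 : ℝ) / p ≤ 1 := by
        rw [div_le_one (by exact_mod_cast hp.pos)]
        exact_mod_cast hp.one_lt.le
      linarith
    set A := (Finset.Icc 1 y).filter (fun d => ∀ q ∈ s, ¬ q ∣ d) with hA
    set B := (Finset.Icc 1 y).filter (fun d => ∀ q ∈ insert p s, ¬ q ∣ d) with hB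
    have hAB : B = A.filter (fun d => ¬ p ∣ d) := by
      ext d
      simp only [hA, hB, Finset.mem_filter, Finset.mem_insert, forall_eq_or_imp]
      tauto
    have hsplit : ∑ d ∈ A, (1 : ℝ) / d = ∑ d ∈ A.filter (fun d => ¬ p ∣ d), (1 : ℝ) / d +
        ∑ d ∈ A.filter (fun d => p ∣ d), (1 : ℝ) / d := by
      have := Finset.sum_filter_add_sum_filter_not A (fun d => p ∣ d) (fun d => (1 : ℝ) / d)
      linarith
    have hle : ∑ d ∈ A.filter (fun d => p ∣ d), (1 : ℝ) / d ≤ 1 / p * ∑ d ∈ A, (1 : ℝ) / d := by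
      rw [Finset.mul_sum]
      have h1 : ∀ d ∈ A.filter (fun d => p ∣ d), (1 : ℝ) / d = 1 / p * (1 / ((d / p : ℕ) : ℝ)) := by
        intro d hd
        rw [Finset.mem_filter] at hd
        obtain ⟨e, rfl⟩ := hd.2
        rw [Nat.mul_div_cancel_left e hp.pos]
        push_cast
        rw [one_div_mul_one_div]
      rw [Finset.sum_congr rfl h1]
      have hinj : Set.InjOn (fun d => d / p) (A.filter (fun d => p ∣ d) : Set ℕ) := by
        intro x hx w hw hxw
        simp only [Finset.coe_filter, Set.mem_ofPred_eq] at hx hw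
        simp only at hxw
        rw [← Nat.div_mul_cancel hx.2, ← Nat.div_mul_cancel hw.2, hxw]
      rw [← Finset.sum_image (f := fun d : ℕ => 1 / (p : ℝ) * (1 / (d : ℝ))) hinj]
      apply Finset.sum_le_sum_of_subset_of_nonneg
      · intro e he
        rw [Finset.mem_image] at he
        obtain ⟨d, hd, rfl⟩ := he
        simp only [hA, Finset.mem_filter, Finset.mem_Icc] at hd ⊢
        obtain ⟨⟨⟨h2, h3⟩, h4⟩, h5⟩ := hd
        refine ⟨⟨?_, (Nat.div_le_self d p).trans h3⟩, ?_⟩
        · exact Nat.div_pos (Nat.le_of_dvd (by omega) h5) hp.pos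
        · intro q hq hqd
          exact h4 q hq (hqd.trans (Nat.div_dvd_of_dvd h5))
      · intro e _ _
        positivity
    rw [hAB]
    calc (1 - (1 : ℝ) / p) * (∏ q ∈ s, (1 - (1 : ℝ) / q)) * (∑ d ∈ Finset.Icc 1 y, (1 : ℝ) / d)
        = (1 - (1 : ℝ) / p) * ((∏ q ∈ s, (1 - (1 : ℝ) / q)) *
            (∑ d ∈ Finset.Icc 1 y, (1 : ℝ) / d)) := by ring
      _ ≤ (1 - (1 : ℝ) / p) * ∑ d ∈ A, (1 : ℝ) / d := by gcongr
      _ ≤ _ := by linarith

theorem totient_div_mul_le {k : ℕ} (hk : k ≠ 0) (y : ℕ) :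
    ((Nat.totient k : ℝ) / k) * (∑ d ∈ Finset.Icc 1 y, (1 : ℝ) / d) ≤
      ∑ d ∈ (Finset.Icc 1 y).filter (fun d => Nat.Coprime d k), (1 : ℝ) / d := by
  have h1 : (Nat.totient k : ℝ) / k = ∏ p ∈ k.primeFactors, (1 - (1 : ℝ) / p) := by
    have h2 := Nat.totient_eq_mul_prod_factors k
    have h3 : (Nat.totient k : ℝ) = k * ∏ p ∈ k.primeFactors, (1 - (p : ℝ)⁻¹) := by
      have := congrArg (fun q : ℚ => (q : ℝ)) h2
      push_cast at this
      exact this
    rw [h3]
    field_simp
  rw [h1]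
  refine (prod_mul_harmonic_le y k.primeFactors
    (fun p hp => Nat.prime_of_mem_primeFactors hp)).trans ?_
  apply Finset.sum_le_sum_of_subset_of_nonneg
  · intro d hd
    rw [Finset.mem_filter] at hd ⊢
    refine ⟨hd.1, ?_⟩
    rw [Nat.coprime_iff_gcd_eq_one]
    by_contra hne
    obtain ⟨p, hp, hpd⟩ := Nat.exists_prime_and_dvd hne
    exact hd.2 p (Nat.mem_primeFactors.mpr ⟨hp, hpd.trans (Nat.gcd_dvd_right d k), hk⟩)
      (hpd.trans (Nat.gcd_dvd_left d k))
  · intro d _ _
    positivity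

theorem log_le_sum_inv (y : ℕ) : Real.log (y + 1) ≤ ∑ d ∈ Finset.Icc 1 y, (1 : ℝ) / d := by
  have h := log_add_one_le_harmonic y
  rw [harmonic_eq_sum_Icc] at h
  push_cast at h
  simpa [one_div] using h

/-- the final lower bound for the Selberg sum -/
theorem lower_bound {k : ℕ} (hk : Even k) (hk0 : k ≠ 0) (y : ℕ) :
    ((Nat.totient k : ℝ) / k) * (Real.log (y + 1)) ^ 2 ≤
      ∑ l ∈ (primorial (y * y)).divisors.filter (fun l => l ≤ y * y),
        Fk k l * ∏ p ∈ l.primeFactors, (1 - Fk k p)⁻¹ := by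
  refine le_trans ?_ (sum_Fk_le hk (y * y))
  have h1 : ∑ m ∈ Finset.Icc 1 (y * y), (ck k m : ℝ) / m ≤ ∑ m ∈ Finset.Icc 1 (y * y), Fk k m := by
    apply Finset.sum_le_sum
    intro m hm
    rw [Finset.mem_Icc] at hm
    rw [Fk_apply]
    gcongr
    exact ck_le_fk k (by omega)
  refine le_trans ?_ h1
  refine le_trans ?_ (sum_ck_div_ge k y)
  have h2 := totient_div_mul_le hk0 y
  have h3 := log_le_sum_inv y
  have h4 : 0 ≤ Real.log (y + 1) := Real.log_nonneg (by
    have : (0 : ℝ) ≤ y := Nat.cast_nonneg y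
    linarith)
  have h5 : 0 ≤ (Nat.totient k : ℝ) / k := by positivity
  calc ((Nat.totient k : ℝ) / k) * (Real.log (y + 1)) ^ 2
      = (((Nat.totient k : ℝ) / k) * Real.log (y + 1)) * Real.log (y + 1) := by ring
    _ ≤ (((Nat.totient k : ℝ) / k) * ∑ d ∈ Finset.Icc 1 y, (1 : ℝ) / d) *
        (∑ d ∈ Finset.Icc 1 y, (1 : ℝ) / d) := by gcongr
    _ ≤ _ := by gcongr

end

end Pool.Agent.Work.Sieve
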