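import Mathlib

open Finset Nat ArithmeticFunction BoundingSieve
open scoped ArithmeticFunction.Moebius ArithmeticFunction.zeta

namespace Pool.Agent.Work.Sieve

noncomputable section

/-- The Selberg sum `S = ∑_{l ∣ P, l ≤ z} g(l)`. -/
def selS (s : BoundingSieve) (z : ℝ) : ℝ :=
  ∑ l ∈ s.prodPrimes.divisors, if (l : ℝ) ≤ z then s.selbergTerms l else 0

/-- The Selberg weights. -/
def selW (s : BoundingSieve) (z : ℝ) (d : ℕ) : ℝ :=
  (μ d : ℝ) * (s.nu d)⁻¹ * (selS s z)⁻¹ *
    ∑ l ∈ s.prodPrimes.divisors, if d ∣ l ∧ (l : ℝ) ≤ z then s.selbergTerms l else 0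

variable {s : BoundingSieve} {z : ℝ}

theorem selS_pos (hz : 1 ≤ z) : 0 < selS s z := by
  unfold selS
  have h1 : (1 : ℕ) ∈ s.prodPrimes.divisors := Nat.one_mem_divisors.mpr prodPrimes_ne_zero
  apply Finset.sum_pos' _ ⟨1, h1, _⟩
  · intro i hi
    split_ifs
    · exact (selbergTerms_pos (Nat.dvd_of_mem_divisors hi)).le
    · exact le_rfl
  · rw [if_pos (by simpa using hz)]
    exact selbergTerms_pos (one_dvd _)

theorem selW_one (hz : 1 ≤ z) : selW s z 1 = 1 := by
  unfold selW
  have h := selS_pos (s := s) hz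
  have : (∑ l ∈ s.prodPrimes.divisors, if 1 ∣ l ∧ (l : ℝ) ≤ z then s.selbergTerms l else 0)
      = selS s z := by
    unfold selS
    apply Finset.sum_congr rfl
    intro l _
    simp
  rw [this]
  simp [s.nu_mult.map_one]
  field_simp

theorem sum_moebius_between {l k : ℕ} (hk : Squarefree k) :
    (∑ d ∈ k.divisors, if l ∣ d then (μ d : ℝ) else 0) = if k = l then (μ l : ℝ) else 0 := by
  have hk0 : k ≠ 0 := hk.ne_zero
  by_cases hlk : l ∣ k
  · obtain ⟨e, rfl⟩ := hlk
    have hcop : Nat.Coprime l e := Nat.coprime_of_squarefree_mul hk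
    have hl0 : l ≠ 0 := by rintro rfl; simp at hk0
    have he0 : e ≠ 0 := by rintro rfl; simp at hk0
    have h1 : (∑ d ∈ (l * e).divisors, if l ∣ d then (μ d : ℝ) else 0)
        = ∑ f ∈ e.divisors, (μ (l * f) : ℝ) := by
      rw [← Finset.sum_filter]
      symm
      apply Finset.sum_bij (fun f _ => l * f)
      · intro f hf
        rw [Finset.mem_filter, Nat.mem_divisors]
        exact ⟨⟨Nat.mul_dvd_mul_left l (Nat.dvd_of_mem_divisors hf), hk0⟩, Nat.dvd_mul_right l f⟩
      · intro a _ b _ hab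
        exact Nat.eq_of_mul_eq_mul_left (Nat.pos_of_ne_zero hl0) hab
      · intro d hd
        rw [Finset.mem_filter, Nat.mem_divisors] at hd
        obtain ⟨⟨hd1, _⟩, ⟨f, rfl⟩⟩ := hd
        exact ⟨f, Nat.mem_divisors.mpr ⟨Nat.dvd_of_mul_dvd_mul_left (Nat.pos_of_ne_zero hl0) hd1, he0⟩, rfl⟩
      · intro f _
        rfl
    rw [h1]
    have h2 : ∀ f ∈ e.divisors, (μ (l * f) : ℝ) = (μ l : ℝ) * (μ f : ℝ) := by
      intro f hf
      have : Nat.Coprime l f := Nat.Coprime.coprime_dvd_right (Nat.dvd_of_mem_divisors hf) hcop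
      rw [ArithmeticFunction.isMultiplicative_moebius.map_mul_of_coprime this]
      push_cast
      ring
    rw [Finset.sum_congr rfl h2, ← Finset.mul_sum]
    have h3 : (∑ f ∈ e.divisors, (μ f : ℝ)) = if e = 1 then 1 else 0 := by
      have h4 : ((ζ : ArithmeticFunction ℤ) * μ) e = (1 : ArithmeticFunction ℤ) e := by
        rw [ArithmeticFunction.coe_zeta_mul_moebius]
      rw [ArithmeticFunction.coe_zeta_mul_apply, ArithmeticFunction.one_apply] at h4
      have h5 : (∑ f ∈ e.divisors, (μ f : ℝ)) = ((∑ f ∈ e.divisors, μ f : ℤ) : ℝ) := by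
        push_cast; rfl
      rw [h5, h4]
      split_ifs <;> simp
    rw [h3]
    by_cases he1 : e = 1
    · subst he1
      simp
    · rw [if_neg he1, if_neg]
      · simp
      · intro h
        apply he1
        exact Nat.eq_of_mul_eq_mul_left (Nat.pos_of_ne_zero hl0) (by rw [h, mul_one])
  · rw [if_neg (by rintro rfl; exact hlk dvd_rfl)]
    apply Finset.sum_eq_zero
    intro d hd
    rw [if_neg]
    intro h
    exact hlk (h.trans (Nat.dvd_of_mem_divisors hd))

theorem sum_nu_mul_selW {l : ℕ} (hl : l ∣ s.prodPrimes) :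
    (∑ d ∈ s.prodPrimes.divisors, if l ∣ d then s.nu d * selW s z d else 0)
      = if (l : ℝ) ≤ z then (selS s z)⁻¹ * ((μ l : ℝ) * s.selbergTerms l) else 0 := by
  have hP : s.prodPrimes ≠ 0 := prodPrimes_ne_zero
  have h1 : ∀ d ∈ s.prodPrimes.divisors, (if l ∣ d then s.nu d * selW s z d else 0)
      = ∑ k ∈ s.prodPrimes.divisors, (selS s z)⁻¹ *
        (if (k : ℝ) ≤ z then s.selbergTerms k else 0) *
        (if d ∣ k then (if l ∣ d then (μ d : ℝ) else 0) else 0) := by
    intro d hd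
    have hnu : s.nu d ≠ 0 := nu_ne_zero (Nat.dvd_of_mem_divisors hd)
    split_ifs with hld
    · unfold selW
      rw [Finset.mul_sum, Finset.mul_sum]
      apply Finset.sum_congr rfl
      intro k _
      by_cases h1 : d ∣ k <;> by_cases h2 : (k : ℝ) ≤ z
      · simp only [h1, h2, and_self, if_true]
        field_simp
      · simp [h1, h2]
      · simp [h1, h2]
      · simp [h1, h2]
    · simp
  rw [Finset.sum_congr rfl h1, Finset.sum_comm]
  have h2 : ∀ k ∈ s.prodPrimes.divisors, (∑ d ∈ s.prodPrimes.divisors, (selS s z)⁻¹ *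
        (if (k : ℝ) ≤ z then s.selbergTerms k else 0) *
        (if d ∣ k then (if l ∣ d then (μ d : ℝ) else 0) else 0))
      = (selS s z)⁻¹ * (if (k : ℝ) ≤ z then s.selbergTerms k else 0) *
        (if k = l then (μ l : ℝ) else 0) := by
    intro k hk
    rw [← Finset.mul_sum, ← sum_moebius_between
      (squarefree_of_mem_divisors_prodPrimes hk)]
    congr 1
    rw [← Finset.sum_filter, Nat.divisors_filter_dvd_of_dvd hP (Nat.dvd_of_mem_divisors hk)]
  rw [Finset.sum_congr rfl h2]
  rw [Finset.sum_eq_single l]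
  · simp only [if_true]
    split_ifs <;> ring
  · intro k _ hk
    rw [if_neg hk]
    ring
  · intro h
    exact absurd (Nat.mem_divisors.mpr ⟨hl, hP⟩) h

theorem selS_eq_sum : selS s z = ∑ l ∈ s.prodPrimes.divisors.filter (fun l : ℕ => (l : ℝ) ≤ z),
    s.selbergTerms l := by
  unfold selS
  rw [Finset.sum_filter]

theorem mainSum_selW (hz : 1 ≤ z) : s.mainSum (lambdaSquared (selW s z)) = (selS s z)⁻¹ := by
  rw [mainSum_lambdaSquared_eq_sum_mul_sum_sq]
  have hS := selS_pos (s := s) hz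
  have h1 : ∀ l ∈ s.prodPrimes.divisors, (s.selbergTerms l)⁻¹ *
        (∑ d ∈ divisors s.prodPrimes, if l ∣ d then s.nu d * selW s z d else 0) ^ 2
      = (selS s z)⁻¹ ^ 2 * (if (l : ℝ) ≤ z then s.selbergTerms l else 0) := by
    intro l hl
    rw [sum_nu_mul_selW (Nat.dvd_of_mem_divisors hl)]
    have hg : s.selbergTerms l ≠ 0 := (selbergTerms_pos (Nat.dvd_of_mem_divisors hl)).ne'
    have hmu : (μ l : ℝ) ^ 2 = 1 := by
      have := ArithmeticFunction.moebius_sq_eq_one_of_squarefree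
        (squarefree_of_mem_divisors_prodPrimes hl)
      exact_mod_cast this
    split_ifs
    · rw [mul_pow, mul_pow, hmu]
      field_simp
    · simp
  rw [Finset.sum_congr rfl h1, ← Finset.mul_sum]
  change (selS s z)⁻¹ ^ 2 * selS s z = _
  field_simp

theorem abs_selW_le_one {d : ℕ} (hz : 1 ≤ z) (hd : d ∣ s.prodPrimes) : |selW s z d| ≤ 1 := by
  have hP : s.prodPrimes ≠ 0 := prodPrimes_ne_zero
  have hS := selS_pos (s := s) hz
  have hnu : 0 < s.nu d := nu_pos_of_dvd_prodPrimes hd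
  have hd0 : d ≠ 0 := ne_zero_of_dvd_ne_zero hP hd
  have hsq : Squarefree d := squarefree_of_dvd_prodPrimes hd
  set T : ℝ := ∑ l ∈ s.prodPrimes.divisors, if d ∣ l ∧ (l : ℝ) ≤ z then s.selbergTerms l else 0
    with hT
  have hT0 : 0 ≤ T := by
    apply Finset.sum_nonneg
    intro l hl
    split_ifs
    · exact (selbergTerms_pos (Nat.dvd_of_mem_divisors hl)).le
    · exact le_rfl
  have key : (s.nu d)⁻¹ * T ≤ selS s z := by
    rw [nu_inv_eq_sum_divisors_inv_selbergTerms hd, hT, ← Finset.sum_filter, ← Finset.sum_filter,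
      Finset.sum_mul_sum, ← Finset.sum_product', selS_eq_sum]
    set A := (s.prodPrimes.divisors.filter (fun l => l ∣ d)) ×ˢ
      (s.prodPrimes.divisors.filter (fun l : ℕ => d ∣ l ∧ (l : ℝ) ≤ z)) with hA
    have hmem : ∀ x ∈ A, x.1 ∣ d ∧ x.2 ∣ s.prodPrimes ∧ d ∣ x.2 ∧ (x.2 : ℝ) ≤ z := by
      intro x hx
      simp only [hA, Finset.mem_product, Finset.mem_filter, Nat.mem_divisors] at hx
      tauto
    have h1 : ∀ x ∈ A, (s.selbergTerms x.1)⁻¹ * s.selbergTerms x.2
        = s.selbergTerms (x.2 / x.1) := by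
      intro x hx
      obtain ⟨h1, h2, h3, h4⟩ := hmem x hx
      have h5 : x.1 ∣ x.2 := h1.trans h3
      obtain ⟨e, he⟩ := h5
      have hsq2 : Squarefree x.2 := squarefree_of_dvd_prodPrimes h2
      have hx1 : x.1 ≠ 0 := ne_zero_of_dvd_ne_zero hd0 h1
      rw [he] at hsq2
      have hc : Nat.Coprime x.1 e := Nat.coprime_of_squarefree_mul hsq2
      rw [he, Nat.mul_div_cancel_left e (Nat.pos_of_ne_zero hx1),
        selbergTerms_isMultiplicative.map_mul_of_coprime hc]
      have : s.selbergTerms x.1 ≠ 0 := (selbergTerms_pos (h1.trans hd)).ne'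
      field_simp
    rw [Finset.sum_congr rfl h1]
    have hinj : Set.InjOn (fun x : ℕ × ℕ => x.2 / x.1) (A : Set (ℕ × ℕ)) := by
      intro x hx y hy hxy
      obtain ⟨hx1, hx2, hx3, -⟩ := hmem x hx
      obtain ⟨hy1, hy2, hy3, -⟩ := hmem y hy
      simp only at hxy
      -- gcd (x.2 / x.1) d = d / x.1
      have aux : ∀ w : ℕ × ℕ, w.1 ∣ d → w.2 ∣ s.prodPrimes → d ∣ w.2 →
          Nat.gcd (w.2 / w.1) d = d / w.1 := by
        intro w h1 h2 h3
        obtain ⟨e, he⟩ := h1
        obtain ⟨m, hm⟩ := h3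
        have hw1 : 0 < w.1 := Nat.pos_of_ne_zero (by rintro h; rw [h] at he; simp at he; exact hd0 he)
        have hsq2 : Squarefree (d * m) := by rw [← hm]; exact squarefree_of_dvd_prodPrimes h2
        have hc : Nat.Coprime d m := Nat.coprime_of_squarefree_mul hsq2
        have h6 : w.2 / w.1 = e * m := by
          rw [hm, he, mul_assoc, Nat.mul_div_cancel_left _ hw1]
        have h7 : d / w.1 = e := by
          rw [he, Nat.mul_div_cancel_left _ hw1]
        rw [h6, h7]
        have hced : Nat.Coprime m d := hc.symm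
        rw [Nat.gcd_comm, Nat.Coprime.gcd_mul_right_cancel_right]
        · exact Nat.gcd_eq_right ⟨w.1, by rw [he]; ring⟩
        · exact hced
      have e1 := aux x hx1 hx2 hx3
      have e2 := aux y hy1 hy2 hy3
      rw [hxy, e2] at e1
      have hxx : x.1 = y.1 := by
        have hdx := Nat.div_mul_cancel hx1
        have hdy := Nat.div_mul_cancel hy1
        have hpos : 0 < d / y.1 := Nat.div_pos (Nat.le_of_dvd (Nat.pos_of_ne_zero hd0) hy1)
          (Nat.pos_of_ne_zero (ne_zero_of_dvd_ne_zero hd0 hy1))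
        rw [← e1] at hdx
        exact Nat.eq_of_mul_eq_mul_left hpos (by rw [hdx, hdy])
      have hyy : x.2 = y.2 := by
        have h5 : x.1 ∣ x.2 := hx1.trans hx3
        have h6 : y.1 ∣ y.2 := hy1.trans hy3
        rw [← Nat.div_mul_cancel h5, ← Nat.div_mul_cancel h6, hxy, hxx]
      exact Prod.ext hxx hyy
    rw [← Finset.sum_image (f := fun l => s.selbergTerms l) hinj]
    apply Finset.sum_le_sum_of_subset_of_nonneg
    · intro l hl
      rw [Finset.mem_image] at hl
      obtain ⟨x, hx, rfl⟩ := hl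
      obtain ⟨h1, h2, h3, h4⟩ := hmem x hx
      rw [Finset.mem_filter, Nat.mem_divisors]
      refine ⟨⟨(Nat.div_dvd_of_dvd (h1.trans h3)).trans h2, hP⟩, ?_⟩
      refine le_trans ?_ h4
      exact_mod_cast Nat.div_le_self x.2 x.1
    · intro l hl _
      rw [Finset.mem_filter] at hl
      exact (selbergTerms_pos (Nat.dvd_of_mem_divisors hl.1)).le
  have hmu : |(μ d : ℝ)| ≤ 1 := by
    have := ArithmeticFunction.abs_moebius_le_one (n := d)
    exact_mod_cast this
  unfold selW
  rw [← hT]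
  have h3 : (μ d : ℝ) * (s.nu d)⁻¹ * (selS s z)⁻¹ * T
      = (μ d : ℝ) * (((s.nu d)⁻¹ * T) * (selS s z)⁻¹) := by ring
  rw [h3, abs_mul]
  have h4 : 0 ≤ ((s.nu d)⁻¹ * T) * (selS s z)⁻¹ := by positivity
  have h5 : ((s.nu d)⁻¹ * T) * (selS s z)⁻¹ ≤ 1 := by
    rw [← div_eq_mul_inv, div_le_one hS]
    exact key
  rw [abs_of_nonneg h4]
  calc |(μ d : ℝ)| * (((s.nu d)⁻¹ * T) * (selS s z)⁻¹) ≤ 1 * 1 :=
        mul_le_mul hmu h5 h4 zero_le_one
    _ = 1 := by ring

theorem selW_eq_zero {d : ℕ} (hdz : z < d) : selW s z d = 0 := by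
  unfold selW
  have : (∑ l ∈ s.prodPrimes.divisors, if d ∣ l ∧ (l : ℝ) ≤ z then s.selbergTerms l else 0) = 0 := by
    apply Finset.sum_eq_zero
    intro l hl
    rw [if_neg]
    rintro ⟨h1, h2⟩
    have hl0 : 0 < l := Nat.pos_of_mem_divisors hl
    have : (d : ℝ) ≤ l := by exact_mod_cast Nat.le_of_dvd hl0 h1
    linarith
  rw [this, mul_zero]

/-- The Selberg upper bound sieve. -/
theorem siftedSum_le (s : BoundingSieve) (hz : 1 ≤ z) :
    s.siftedSum ≤ s.totalMass * (selS s z)⁻¹ +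
      ∑ d1 ∈ s.prodPrimes.divisors.filter (fun l : ℕ => (l : ℝ) ≤ z),
      ∑ d2 ∈ s.prodPrimes.divisors.filter (fun l : ℕ => (l : ℝ) ≤ z),
        |s.rem (Nat.lcm d1 d2)| := by
  have hP : s.prodPrimes ≠ 0 := prodPrimes_ne_zero
  have h1 := siftedSum_le_mainSum_errSum_of_upperMoebius (s := s) (lambdaSquared (selW s z))
    (upperMoebius_lambdaSquared _ (selW_one hz))
  rw [mainSum_selW hz] at h1
  refine h1.trans ?_
  gcongr
  unfold errSum
  set P := s.prodPrimes with hPdef
  have h2 : ∀ d ∈ P.divisors, |lambdaSquared (selW s z) d| * |s.rem d| ≤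
      ∑ d1 ∈ P.divisors, ∑ d2 ∈ P.divisors,
        if d = Nat.lcm d1 d2 then |selW s z d1| * |selW s z d2| * |s.rem d| else 0 := by
    intro d hd
    unfold lambdaSquared
    have h3 : |∑ d1 ∈ d.divisors, ∑ d2 ∈ d.divisors,
        if d = Nat.lcm d1 d2 then selW s z d1 * selW s z d2 else 0| ≤
        ∑ d1 ∈ P.divisors, ∑ d2 ∈ P.divisors,
        if d = Nat.lcm d1 d2 then |selW s z d1| * |selW s z d2| else 0 := by
      refine (Finset.abs_sum_le_sum_abs _ _).trans ?_
      have hsub : d.divisors ⊆ P.divisors := Nat.divisors_subset_of_dvd hP (Nat.dvd_of_mem_divisors hd)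
      refine (Finset.sum_le_sum (fun d1 _ => Finset.abs_sum_le_sum_abs _ _)).trans ?_
      have h4 : ∀ d1 d2 : ℕ, |if d = Nat.lcm d1 d2 then selW s z d1 * selW s z d2 else 0|
          = if d = Nat.lcm d1 d2 then |selW s z d1| * |selW s z d2| else 0 := by
        intro d1 d2
        split_ifs
        · rw [abs_mul]
        · simp
      simp_rw [h4]
      have h5 : ∀ d1 d2 : ℕ, 0 ≤ if d = Nat.lcm d1 d2 then |selW s z d1| * |selW s z d2| else 0 := by
        intro d1 d2
        split_ifs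
        · positivity
        · exact le_rfl
      refine (Finset.sum_le_sum (fun d1 _ =>
        Finset.sum_le_sum_of_subset_of_nonneg hsub (fun d2 _ _ => h5 d1 d2))).trans ?_
      exact Finset.sum_le_sum_of_subset_of_nonneg hsub
        (fun d1 _ _ => Finset.sum_nonneg (fun d2 _ => h5 d1 d2))
    calc |∑ d1 ∈ d.divisors, ∑ d2 ∈ d.divisors,
        if d = Nat.lcm d1 d2 then selW s z d1 * selW s z d2 else 0| * |s.rem d|
        ≤ (∑ d1 ∈ P.divisors, ∑ d2 ∈ P.divisors,
        if d = Nat.lcm d1 d2 then |selW s z d1| * |selW s z d2| else 0) * |s.rem d| := by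
          gcongr
      _ = _ := by
          rw [Finset.sum_mul]
          apply Finset.sum_congr rfl
          intro d1 _
          rw [Finset.sum_mul]
          apply Finset.sum_congr rfl
          intro d2 _
          split_ifs <;> ring
  refine (Finset.sum_le_sum h2).trans ?_
  rw [Finset.sum_comm]
  have h6 : ∀ d1 ∈ P.divisors, (∑ d ∈ P.divisors, ∑ d2 ∈ P.divisors,
        if d = Nat.lcm d1 d2 then |selW s z d1| * |selW s z d2| * |s.rem d| else 0)
      = ∑ d2 ∈ P.divisors, |selW s z d1| * |selW s z d2| * |s.rem (Nat.lcm d1 d2)| := by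
    intro d1 hd1
    rw [Finset.sum_comm]
    apply Finset.sum_congr rfl
    intro d2 hd2
    have hl : Nat.lcm d1 d2 ∈ P.divisors :=
      Nat.mem_divisors.mpr ⟨Nat.lcm_dvd (Nat.dvd_of_mem_divisors hd1) (Nat.dvd_of_mem_divisors hd2), hP⟩
    rw [Finset.sum_eq_single (Nat.lcm d1 d2)]
    · simp
    · intro d _ hne
      rw [if_neg hne]
    · intro h
      exact absurd hl h
  rw [Finset.sum_congr rfl h6]
  rw [Finset.sum_filter]
  apply Finset.sum_le_sum
  intro d1 hd1
  split_ifs with hz1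
  · rw [Finset.sum_filter]
    apply Finset.sum_le_sum
    intro d2 hd2
    split_ifs with hz2
    · have a1 := abs_selW_le_one (s := s) hz (Nat.dvd_of_mem_divisors hd1)
      have a2 := abs_selW_le_one (s := s) hz (Nat.dvd_of_mem_divisors hd2)
      calc |selW s z d1| * |selW s z d2| * |s.rem (Nat.lcm d1 d2)|
          ≤ 1 * 1 * |s.rem (Nat.lcm d1 d2)| := by gcongr
        _ = _ := by ring
    · rw [selW_eq_zero (s := s) (d := d2) (lt_of_not_ge hz2)]
      simp
  · rw [selW_eq_zero (s := s) (d := d1) (lt_of_not_ge hz1)]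
    simp

end

end Pool.Agent.Work.Sieve
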