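import Mathlib
import Pool.Agent.Work.Sieve.Selberg
import Pool.Agent.Work.Sieve.LowerS

open Finset Nat

namespace Pool.Agent.Work.Sieve

noncomputable section

/-- number of roots of `x (a x + b)` modulo `d` -/
def rho (a b d : ℕ) : ℕ := Nat.card {x : ZMod d // x * ((a : ZMod d) * x + b) = 0}

theorem rho_mul (a b : ℕ) {m n : ℕ} (h : Nat.Coprime m n) :
    rho a b (m * n) = rho a b m * rho a b n := by
  unfold rho
  rw [← Nat.card_prod]
  let e := ZMod.chineseRemainder h
  apply Nat.card_congr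
  refine
    { toFun := fun x => (⟨(e x.1).1, ?_⟩, ⟨(e x.1).2, ?_⟩)
      invFun := fun y => ⟨e.symm (y.1.1, y.2.1), ?_⟩
      left_inv := ?_
      right_inv := ?_ }
  · have := congrArg (fun t => (e t).1) x.2
    simpa using this
  · have := congrArg (fun t => (e t).2) x.2
    simpa using this
  · apply e.injective
    rw [map_mul, map_add, map_mul, map_natCast, map_natCast, RingEquiv.apply_symm_apply, map_zero]
    ext
    · simpa using y.1.2
    · simpa using y.2.2
  · intro x
    apply Subtype.ext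
    simp
  · intro y
    apply Prod.ext
    · apply Subtype.ext
      simp
    · apply Subtype.ext
      simp

theorem rho_one (a b : ℕ) : rho a b 1 = 1 := by
  unfold rho
  have : Subsingleton (ZMod 1) := inferInstance
  rw [Nat.card_eq_one_iff_unique]
  refine ⟨⟨fun x y => Subtype.ext (Subsingleton.elim _ _)⟩, ⟨⟨0, Subsingleton.elim _ _⟩⟩⟩

theorem rho_prime {a b : ℕ} (hab : Nat.Coprime a b) {p : ℕ} (hp : p.Prime) :
    rho a b p = if p ∣ a * b then 1 else 2 := by
  have : Fact p.Prime := ⟨hp⟩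
  unfold rho
  by_cases ha : p ∣ a
  · rw [if_pos (ha.mul_right b)]
    have ha0 : (a : ZMod p) = 0 := (ZMod.natCast_eq_zero_iff a p).mpr ha
    have hb : ¬ p ∣ b := by
      intro hb
      have := Nat.dvd_gcd ha hb
      rw [hab] at this
      exact hp.one_lt.ne' (Nat.dvd_one.mp this)
    have hb0 : (b : ZMod p) ≠ 0 := by
      rwa [Ne, ZMod.natCast_eq_zero_iff]
    rw [Nat.card_eq_one_iff_unique]
    refine ⟨⟨fun ⟨x, hx⟩ ⟨y, hy⟩ => Subtype.ext ?_⟩, ⟨⟨0, by simp⟩⟩⟩
    rw [ha0] at hx hy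
    simp only [zero_mul, zero_add, _root_.mul_eq_zero, hb0, or_false] at hx hy
    simp only
    rw [hx, hy]
  · have ha0 : (a : ZMod p) ≠ 0 := by rwa [Ne, ZMod.natCast_eq_zero_iff]
    have hset : ∀ x : ZMod p, x * ((a : ZMod p) * x + b) = 0 ↔ x ∈ ({0, -(b : ZMod p) / a} : Finset (ZMod p)) := by
      intro x
      rw [Finset.mem_insert, Finset.mem_singleton, _root_.mul_eq_zero]
      constructor
      · rintro (h | h)
        · exact Or.inl h
        · right
          field_simp
          linear_combination h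
      · rintro (h | h)
        · exact Or.inl h
        · right
          rw [h]
          field_simp
          ring
    rw [Nat.card_congr (Equiv.subtypeEquivRight hset), Nat.card_eq_fintype_card, Fintype.card_coe]
    by_cases hb : p ∣ b
    · rw [if_pos (hb.mul_left a)]
      have hb0 : (b : ZMod p) = 0 := (ZMod.natCast_eq_zero_iff b p).mpr hb
      rw [hb0]
      simp
    · have hb0 : (b : ZMod p) ≠ 0 := by rwa [Ne, ZMod.natCast_eq_zero_iff]
      rw [if_neg]
      · rw [Finset.card_insert_of_notMem, Finset.card_singleton]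
        rw [Finset.mem_singleton]
        intro h
        apply hb0
        field_simp at h
        simpa using h.symm
      · intro h
        rcases (Nat.Prime.dvd_mul hp).mp h with h | h
        · exact ha h
        · exact hb h

/-- density function of the sieve -/
def nuF (k : ℕ) : ArithmeticFunction ℝ := ArithmeticFunction.prodPrimeFactors (fun p => Fk k p)

theorem nuF_mult (k : ℕ) : (nuF k).IsMultiplicative :=
  ArithmeticFunction.IsMultiplicative.prodPrimeFactors _

theorem nuF_prime (k : ℕ) {p : ℕ} (hp : p.Prime) : nuF k p = Fk k p := by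
  unfold nuF
  rw [ArithmeticFunction.prodPrimeFactors_apply hp.ne_zero, hp.primeFactors, Finset.prod_singleton]

theorem nuF_squarefree (k : ℕ) {d : ℕ} (hd : Squarefree d) : nuF k d = Fk k d := by
  unfold nuF
  rw [ArithmeticFunction.prodPrimeFactors_apply hd.ne_zero]
  conv_rhs => rw [← Nat.prod_primeFactors_of_squarefree hd]
  rw [map_prod]

theorem rho_eq {a b : ℕ} (hab : Nat.Coprime a b) {d : ℕ} (hd : Squarefree d) :
    (rho a b d : ℝ) = d * nuF (a * b) d := by
  induction d using Nat.recOnPosPrimePosCoprime with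
  | prime_pow p n hp hn =>
    have hn1 : n = 1 := by
      by_contra h
      have h2 : 2 ≤ n := by omega
      have : p * p ∣ p ^ n := by rw [← pow_two]; exact pow_dvd_pow p h2
      have := hd p this
      rw [Nat.isUnit_iff] at this
      exact hp.one_lt.ne' this
    subst hn1
    rw [pow_one, nuF_prime _ hp, Fk_prime _ hp, rho_prime hab hp]
    have : (p : ℝ) ≠ 0 := by exact_mod_cast hp.ne_zero
    split_ifs <;> field_simp <;> norm_num
  | zero => simp at hd
  | one =>
    rw [rho_one]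
    simp [(nuF_mult _).map_one]
  | coprime m n _ _ hmn ihm ihn =>
    rw [Nat.squarefree_mul_iff] at hd
    rw [rho_mul a b hmn, (nuF_mult _).map_mul_of_coprime hmn]
    push_cast
    rw [ihm hd.2.1, ihn hd.2.2]
    ring

theorem rho_le (a b : ℕ) {d : ℕ} (hd : d ≠ 0) : rho a b d ≤ d := by
  have : NeZero d := ⟨hd⟩
  unfold rho
  calc Nat.card {x : ZMod d // x * ((a : ZMod d) * x + b) = 0} ≤ Nat.card (ZMod d) :=
        Nat.card_le_card_of_injective (fun x => x.1) Subtype.val_injective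
    _ = d := Nat.card_zmod d

/-- counting a residue class in an interval -/
theorem card_class (X : ℕ) {d : ℕ} (hd : d ≠ 0) (x : ZMod d) :
    |(((Finset.Icc 1 X).filter (fun m : ℕ => (m : ZMod d) = x)).card : ℝ) - (X : ℝ) / d| ≤ 1 := by
  have : NeZero d := ⟨hd⟩
  have hdpos : 0 < d := Nat.pos_of_ne_zero hd
  have h1 : (Finset.Icc 1 X).filter (fun m : ℕ => (m : ZMod d) = x) =
      (Finset.Ioc 0 X).filter (fun m : ℕ => m ≡ x.val [MOD d]) := by
    ext m
    simp only [Finset.mem_filter, Finset.mem_Icc, Finset.mem_Ioc]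
    have : (m : ZMod d) = x ↔ m ≡ x.val [MOD d] := by
      rw [← ZMod.natCast_eq_natCast_iff, ZMod.natCast_zmod_val]
    rw [this]
    constructor
    · rintro ⟨⟨h1, h2⟩, h3⟩; exact ⟨⟨by omega, h2⟩, h3⟩
    · rintro ⟨⟨h1, h2⟩, h3⟩; exact ⟨⟨by omega, h2⟩, h3⟩
  rw [h1]
  have h2 := Nat.Ioc_filter_modEq_card 0 X hdpos x.val
  have h3 : (((Finset.Ioc 0 X).filter (fun m : ℕ => m ≡ x.val [MOD d])).card : ℝ) =
      ((max (⌊((X : ℚ) - (x.val : ℚ)) / d⌋ - ⌊((0 : ℕ) - (x.val : ℚ)) / (d : ℚ)⌋) 0 : ℤ) : ℝ) := by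
    exact_mod_cast congrArg (fun t : ℤ => (t : ℝ)) h2
  rw [h3]
  set u : ℚ := ((X : ℚ) - (x.val : ℚ)) / d with hu
  set v : ℚ := (((0 : ℕ) : ℚ) - (x.val : ℚ)) / (d : ℚ) with hv
  have huv : u - v = (X : ℚ) / d := by
    rw [hu, hv]; push_cast; ring
  have hvu : v ≤ u := by
    have : 0 ≤ (X : ℚ) / d := by positivity
    linarith
  have hfl : ⌊v⌋ ≤ ⌊u⌋ := Int.floor_le_floor hvu
  rw [max_eq_left (by omega)]
  have e1 := Int.floor_le u
  have e2 := Int.lt_floor_add_one u
  have e3 := Int.floor_le v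
  have e4 := Int.lt_floor_add_one v
  have hq : |(((⌊u⌋ - ⌊v⌋ : ℤ)) : ℚ) - (X : ℚ) / d| ≤ 1 := by
    rw [← huv]
    push_cast
    rw [abs_le]
    constructor <;> linarith
  have hq2 := (Rat.cast_le (K := ℝ)).mpr hq
  push_cast at hq2
  push_cast
  exact hq2

theorem count_roots (a b X : ℕ) {d : ℕ} (hd : d ≠ 0) :
    |(((Finset.Icc 1 X).filter (fun m : ℕ => d ∣ m * (a * m + b))).card : ℝ)
      - (rho a b d : ℝ) * ((X : ℝ) / d)| ≤ rho a b d := by
  classical
  have : NeZero d := ⟨hd⟩
  set R : Finset (ZMod d) := Finset.univ.filter (fun x : ZMod d => x * ((a : ZMod d) * x + b) = 0)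
    with hR
  have hRcard : rho a b d = R.card := by
    unfold rho
    rw [Nat.card_eq_fintype_card, Fintype.card_subtype]
  have h1 : ((Finset.Icc 1 X).filter (fun m : ℕ => d ∣ m * (a * m + b))).card =
      ∑ x ∈ R, ((Finset.Icc 1 X).filter (fun m : ℕ => (m : ZMod d) = x)).card := by
    have hmaps : ∀ m ∈ (Finset.Icc 1 X).filter (fun m : ℕ => d ∣ m * (a * m + b)),
        (m : ZMod d) ∈ R := by
      intro m hm
      rw [Finset.mem_filter] at hm
      rw [hR, Finset.mem_filter]
      refine ⟨Finset.mem_univ _, ?_⟩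
      have := (ZMod.natCast_eq_zero_iff _ _).mpr hm.2
      push_cast at this
      exact this
    rw [Finset.card_eq_sum_card_fiberwise hmaps]
    apply Finset.sum_congr rfl
    intro x hx
    congr 1
    ext m
    simp only [Finset.mem_filter, Finset.mem_Icc]
    constructor
    · rintro ⟨⟨h1, _⟩, h3⟩; exact ⟨h1, h3⟩
    · rintro ⟨h1, h3⟩
      refine ⟨⟨h1, ?_⟩, h3⟩
      rw [← ZMod.natCast_eq_zero_iff]
      push_cast
      rw [h3]
      rw [hR, Finset.mem_filter] at hx
      exact hx.2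
  rw [h1, hRcard]
  push_cast
  have h2 : (∑ x ∈ R, (((Finset.Icc 1 X).filter (fun m : ℕ => (m : ZMod d) = x)).card : ℝ))
      - (R.card : ℝ) * ((X : ℝ) / d) =
      ∑ x ∈ R, ((((Finset.Icc 1 X).filter (fun m : ℕ => (m : ZMod d) = x)).card : ℝ) - (X : ℝ) / d) := by
    rw [Finset.sum_sub_distrib, Finset.sum_const, nsmul_eq_mul]
  rw [h2]
  refine (Finset.abs_sum_le_sum_abs _ _).trans ?_
  refine (Finset.sum_le_sum (fun x _ => card_class X hd x)).trans ?_
  simp

/-- the sieve of the prime pair problem -/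
def pairSieve (a b X y : ℕ) (hk : Even (a * b)) : BoundingSieve where
  support := (Finset.Icc 1 X).image (fun m => m * (a * m + b))
  prodPrimes := primorial (y * y)
  prodPrimes_squarefree := squarefree_primorial _
  weights := fun _ => 1
  weights_nonneg := fun _ => zero_le_one
  totalMass := X
  nu := nuF (a * b)
  nu_mult := nuF_mult _
  nu_pos_of_prime := by
    intro p hp _
    rw [nuF_prime _ hp, Fk_apply]
    have h1 := fk_pos (a * b) p
    have h2 := hp.pos
    positivity
  nu_lt_one_of_prime := by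
    intro p hp _
    rw [nuF_prime _ hp]
    exact Fk_prime_lt_one hk hp

theorem pairSieve_inj {a b : ℕ} (ha : 0 < a) (X : ℕ) :
    Set.InjOn (fun m => m * (a * m + b)) (Finset.Icc 1 X : Set ℕ) := by
  have hmono : ∀ m n : ℕ, 1 ≤ m → m < n → m * (a * m + b) < n * (a * n + b) := by
    intro m n hm hmn
    have h1 : a * m + b ≤ a * n + b := by gcongr
    have h3 : 0 < a * m + b := by
      have : 0 < a * m := Nat.mul_pos ha hm
      omega
    calc m * (a * m + b) < n * (a * m + b) := Nat.mul_lt_mul_of_pos_right hmn h3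
      _ ≤ n * (a * n + b) := Nat.mul_le_mul_left n h1
  intro m hm n hn h
  rw [Finset.mem_coe, Finset.mem_Icc] at hm hn
  simp only at h
  rcases lt_trichotomy m n with h1 | h1 | h1
  · exact absurd h (hmono m n hm.1 h1).ne
  · exact h1
  · exact absurd h (hmono n m hn.1 h1).ne'

theorem pairSieve_rem {a b : ℕ} (ha : 0 < a) (hab : Nat.Coprime a b) (X y : ℕ) (hk : Even (a * b))
    {d : ℕ} (hd : d ∣ primorial (y * y)) :
    |(pairSieve a b X y hk).rem d| ≤ d := by
  have hsq : Squarefree d := Squarefree.squarefree_of_dvd hd (squarefree_primorial _)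
  have hd0 : d ≠ 0 := hsq.ne_zero
  have h1 : (pairSieve a b X y hk).multSum d =
      (((Finset.Icc 1 X).filter (fun m : ℕ => d ∣ m * (a * m + b))).card : ℝ) := by
    simp only [BoundingSieve.multSum, pairSieve]
    rw [Finset.sum_image (pairSieve_inj ha X)]
    rw [Finset.card_filter]
    push_cast
    rfl
  have h2 : (pairSieve a b X y hk).nu d * (pairSieve a b X y hk).totalMass =
      (rho a b d : ℝ) * ((X : ℝ) / d) := by
    rw [rho_eq hab hsq]
    simp only [pairSieve]
    have : (d : ℝ) ≠ 0 := by exact_mod_cast hd0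
    field_simp
  simp only [BoundingSieve.rem]
  rw [h1, h2]
  refine (count_roots a b X hd0).trans ?_
  exact_mod_cast rho_le a b hd0

theorem pairSieve_selS (a b X y : ℕ) (hk : Even (a * b)) (hk0 : a * b ≠ 0) :
    ((Nat.totient (a * b) : ℝ) / ((a * b : ℕ) : ℝ)) * (Real.log (y + 1)) ^ 2 ≤
      selS (pairSieve a b X y hk) ((y * y : ℕ) : ℝ) := by
  refine (lower_bound hk hk0 y).trans (le_of_eq ?_)
  rw [selS_eq_sum]
  have h1 : ((pairSieve a b X y hk).prodPrimes.divisors.filter
      (fun l : ℕ => (l : ℝ) ≤ ((y * y : ℕ) : ℝ))) =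
      (primorial (y * y)).divisors.filter (fun l => l ≤ y * y) := by
    apply Finset.filter_congr
    intro l _
    rw [Nat.cast_le]
  rw [h1]
  apply Finset.sum_congr rfl
  intro l hl
  rw [Finset.mem_filter, Nat.mem_divisors] at hl
  have hsq : Squarefree l := Squarefree.squarefree_of_dvd hl.1.1 (squarefree_primorial _)
  rw [BoundingSieve.selbergTerms_apply]
  simp only [pairSieve]
  rw [nuF_squarefree _ hsq]
  congr 1
  apply Finset.prod_congr rfl
  intro p hp
  rw [nuF_prime _ (Nat.prime_of_mem_primeFactors hp)]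

/-- First form of the bound for prime pairs. -/
theorem pair_bound_aux {a b : ℕ} (ha : 0 < a) (hb : 0 < b) (hab : Nat.Coprime a b)
    (hk : Even (a * b)) (X y : ℕ) (hy : 1 ≤ y) :
    (((Finset.Icc 1 X).filter (fun m : ℕ => m.Prime ∧ (a * m + b).Prime)).card : ℝ) ≤
      (y : ℝ) ^ 2 + (X : ℝ) * (((Nat.totient (a * b) : ℝ) / ((a * b : ℕ) : ℝ)) *
        (Real.log (y + 1)) ^ 2)⁻¹ + (y : ℝ) ^ 8 := by
  have hk0 : a * b ≠ 0 := (Nat.mul_pos ha hb).ne'
  set s := pairSieve a b X y hk with hs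
  have hz : (1 : ℝ) ≤ ((y * y : ℕ) : ℝ) := by
    exact_mod_cast Nat.mul_pos hy hy
  have hsel := siftedSum_le s hz
  have hS := pairSieve_selS a b X y hk hk0
  rw [← hs] at hS
  have hlog : 0 < Real.log (y + 1) := Real.log_pos (by
    have : (1 : ℝ) ≤ y := by exact_mod_cast hy
    linarith)
  have hpos : 0 < ((Nat.totient (a * b) : ℝ) / ((a * b : ℕ) : ℝ)) * (Real.log (y + 1)) ^ 2 := by
    have h1 : 0 < Nat.totient (a * b) := Nat.totient_pos.mpr (Nat.pos_of_ne_zero hk0)
    have h2 : 0 < a * b := Nat.pos_of_ne_zero hk0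
    have h3 : (0 : ℝ) < Nat.totient (a * b) := by exact_mod_cast h1
    have h4 : (0 : ℝ) < ((a * b : ℕ) : ℝ) := by exact_mod_cast h2
    positivity
  -- split the count
  set A := (Finset.Icc 1 X).filter (fun m : ℕ => m.Prime ∧ (a * m + b).Prime) with hA
  have hsplit : A ⊆ Finset.Icc 1 (y * y) ∪ A.filter (fun m => y * y < m) := by
    intro m hm
    rw [Finset.mem_union, Finset.mem_filter]
    by_cases h : y * y < m
    · exact Or.inr ⟨hm, h⟩
    · left
      rw [hA, Finset.mem_filter, Finset.mem_Icc] at hm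
      rw [Finset.mem_Icc]
      omega
  have hcard : (A.card : ℝ) ≤ (y : ℝ) ^ 2 + ((A.filter (fun m => y * y < m)).card : ℝ) := by
    have h1 := (Finset.card_le_card hsplit).trans (Finset.card_union_le _ _)
    rw [Nat.card_Icc] at h1
    have h2 : A.card ≤ y * y + (A.filter (fun m => y * y < m)).card := by
      omega
    have h3 : (A.card : ℝ) ≤ ((y * y + (A.filter (fun m => y * y < m)).card : ℕ) : ℝ) := by
      exact_mod_cast h2
    push_cast at h3
    rw [pow_two]
    exact h3
  -- the large ones are sifted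
  have hsift : ((A.filter (fun m => y * y < m)).card : ℝ) ≤ s.siftedSum := by
    simp only [BoundingSieve.siftedSum, hs, pairSieve]
    rw [Finset.sum_image (pairSieve_inj ha X)]
    rw [← Finset.sum_filter]
    rw [Finset.sum_const, nsmul_eq_mul, mul_one]
    norm_cast
    apply Finset.card_le_card
    intro m hm
    rw [Finset.mem_filter, hA, Finset.mem_filter] at hm
    obtain ⟨⟨h1, h2, h3⟩, h4⟩ := hm
    rw [Finset.mem_filter]
    refine ⟨h1, ?_⟩
    have hc : ∀ q : ℕ, q.Prime → y * y < q → Nat.Coprime (primorial (y * y)) q := by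
      intro q hq hyq
      rw [Nat.coprime_comm, Nat.Prime.coprime_iff_not_dvd hq, hq.dvd_primorial_iff]
      omega
    apply Nat.Coprime.mul_right
    · exact hc m h2 h4
    · apply hc _ h3
      have : m ≤ a * m := Nat.le_mul_of_pos_left m ha
      omega
  have herr : ∑ d1 ∈ s.prodPrimes.divisors.filter (fun l : ℕ => (l : ℝ) ≤ ((y * y : ℕ) : ℝ)),
      ∑ d2 ∈ s.prodPrimes.divisors.filter (fun l : ℕ => (l : ℝ) ≤ ((y * y : ℕ) : ℝ)),
        |s.rem (Nat.lcm d1 d2)| ≤ (y : ℝ) ^ 8 := by
    set D := s.prodPrimes.divisors.filter (fun l : ℕ => (l : ℝ) ≤ ((y * y : ℕ) : ℝ)) with hD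
    have hDcard : (D.card : ℝ) ≤ (y : ℝ) ^ 2 := by
      have : D ⊆ Finset.Icc 1 (y * y) := by
        intro l hl
        rw [hD, Finset.mem_filter] at hl
        rw [Finset.mem_Icc]
        exact ⟨Nat.pos_of_mem_divisors hl.1, by exact_mod_cast hl.2⟩
      have h1 := Finset.card_le_card this
      rw [Nat.card_Icc] at h1
      have h2 : D.card ≤ y * y := by omega
      have h3 : (D.card : ℝ) ≤ ((y * y : ℕ) : ℝ) := by exact_mod_cast h2
      push_cast at h3
      rw [pow_two]; exact h3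
    have hterm : ∀ d1 ∈ D, ∀ d2 ∈ D, |s.rem (Nat.lcm d1 d2)| ≤ (y : ℝ) ^ 4 := by
      intro d1 h1 d2 h2
      rw [hD, Finset.mem_filter, Nat.mem_divisors] at h1 h2
      have hl : Nat.lcm d1 d2 ∣ primorial (y * y) := Nat.lcm_dvd h1.1.1 h2.1.1
      have h3 := pairSieve_rem ha hab X y hk hl
      refine h3.trans ?_
      have h4 : d1 ≤ y * y := by exact_mod_cast h1.2
      have h5 : d2 ≤ y * y := by exact_mod_cast h2.2
      have h6 : Nat.lcm d1 d2 ≤ (y * y) * (y * y) := by
        by_cases hz1 : d1 = 0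
        · simp [hz1]
        by_cases hz2 : d2 = 0
        · simp [hz2]
        calc Nat.lcm d1 d2 ≤ d1 * d2 := Nat.le_of_dvd (Nat.mul_pos (Nat.pos_of_ne_zero hz1)
              (Nat.pos_of_ne_zero hz2)) (Nat.lcm_dvd_mul d1 d2)
          _ ≤ _ := Nat.mul_le_mul h4 h5
      calc ((Nat.lcm d1 d2 : ℕ) : ℝ) ≤ (((y * y) * (y * y) : ℕ) : ℝ) := by exact_mod_cast h6
        _ = (y : ℝ) ^ 4 := by push_cast; ring
    calc ∑ d1 ∈ D, ∑ d2 ∈ D, |s.rem (Nat.lcm d1 d2)|
        ≤ ∑ d1 ∈ D, ∑ d2 ∈ D, (y : ℝ) ^ 4 :=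
          Finset.sum_le_sum (fun d1 h1 => Finset.sum_le_sum (fun d2 h2 => hterm d1 h1 d2 h2))
      _ = (D.card : ℝ) * ((D.card : ℝ) * (y : ℝ) ^ 4) := by
          rw [Finset.sum_const, Finset.sum_const]; simp [nsmul_eq_mul]
      _ ≤ (y : ℝ) ^ 2 * ((y : ℝ) ^ 2 * (y : ℝ) ^ 4) := by gcongr
      _ = (y : ℝ) ^ 8 := by ring
  have hmain : s.totalMass * (selS s ((y * y : ℕ) : ℝ))⁻¹ ≤
      (X : ℝ) * (((Nat.totient (a * b) : ℝ) / ((a * b : ℕ) : ℝ)) * (Real.log (y + 1)) ^ 2)⁻¹ := by
    have : s.totalMass = (X : ℝ) := rfl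
    rw [this]
    gcongr
  linarith

end

end Pool.Agent.Work.Sieve
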