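import Mathlib
import Pool.Agent.Work.Sieve.PrimePair

open Finset Nat

namespace Pool.Agent.Work.Sieve

theorem one_le_div_totient {k : ℕ} (hk : k ≠ 0) : 1 ≤ (k : ℝ) / (Nat.totient k : ℝ) := by
  have h1 : 0 < Nat.totient k := Nat.totient_pos.mpr (Nat.pos_of_ne_zero hk)
  have h2 : (0 : ℝ) < Nat.totient k := by exact_mod_cast h1
  rw [le_div_iff₀ h2, one_mul]
  exact_mod_cast Nat.totient_le k

/-- `X^{2/3} (log X)^2 ≤ 36 X` -/
theorem rpow_log_bound {X : ℝ} (hX : 1 < X) : X ^ ((2 : ℝ) / 3) ≤ 36 * (X / (Real.log X) ^ 2) := by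
  have hX0 : 0 < X := by linarith
  have hlog : 0 < Real.log X := Real.log_pos hX
  have h1 : Real.log X ≤ X ^ ((1 : ℝ) / 6) / (1 / 6) :=
    Real.log_le_rpow_div hX0.le (by norm_num)
  have h2 : (Real.log X) ^ 2 ≤ 36 * X ^ ((1 : ℝ) / 3) := by
    have h3 : (Real.log X) ^ 2 ≤ (X ^ ((1 : ℝ) / 6) / (1 / 6)) ^ 2 := by gcongr
    have h4 : (X ^ ((1 : ℝ) / 6) / (1 / 6)) ^ 2 = 36 * X ^ ((1 : ℝ) / 3) := by
      have : X ^ ((1 : ℝ) / 3) = (X ^ ((1 : ℝ) / 6)) ^ 2 := by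
        rw [← Real.rpow_natCast, ← Real.rpow_mul hX0.le]
        norm_num
      rw [this]; ring
    linarith
  rw [mul_div_assoc', le_div_iff₀ (by positivity)]
  calc X ^ ((2 : ℝ) / 3) * (Real.log X) ^ 2 ≤ X ^ ((2 : ℝ) / 3) * (36 * X ^ ((1 : ℝ) / 3)) := by gcongr
    _ = 36 * (X ^ ((2 : ℝ) / 3) * X ^ ((1 : ℝ) / 3)) := by ring
    _ = 36 * X := by
      rw [← Real.rpow_add hX0]
      norm_num

/-- **Upper bound for prime pairs**, uniform in `a` and `b`. -/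
theorem pair_bound {a b : ℕ} (ha : 0 < a) (hb : 0 < b) (hab : Nat.Coprime a b) {X : ℕ} (hX : 2 ≤ X) :
    (((Finset.Icc 1 X).filter (fun m : ℕ => m.Prime ∧ (a * m + b).Prime)).card : ℝ) ≤
      216 * (((a * b : ℕ) : ℝ) / (Nat.totient (a * b) : ℝ)) * ((X : ℝ) / (Real.log X) ^ 2) := by
  have hk0 : a * b ≠ 0 := (Nat.mul_pos ha hb).ne'
  have hXr : (1 : ℝ) < X := by exact_mod_cast (by omega : 1 < X)
  have hX0 : (0 : ℝ) < X := by linarith
  have hlog : 0 < Real.log X := Real.log_pos hXr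
  have hone := one_le_div_totient hk0
  have hL := rpow_log_bound hXr
  have hpos : 0 < (X : ℝ) / (Real.log X) ^ 2 := by positivity
  have hX23 : (1 : ℝ) ≤ (X : ℝ) ^ ((2 : ℝ) / 3) := Real.one_le_rpow hXr.le (by norm_num)
  rcases Nat.even_or_odd (a * b) with hk | hk
  · set y : ℕ := ⌊(X : ℝ) ^ ((1 : ℝ) / 12)⌋₊ with hy
    have hX12 : (1 : ℝ) ≤ (X : ℝ) ^ ((1 : ℝ) / 12) := Real.one_le_rpow hXr.le (by norm_num)
    have hy1 : 1 ≤ y := by
      rw [hy]
      exact (Nat.one_le_floor_iff _).mpr hX12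
    have hyr : (1 : ℝ) ≤ y := by exact_mod_cast hy1
    have hyle : (y : ℝ) ≤ (X : ℝ) ^ ((1 : ℝ) / 12) := Nat.floor_le (by positivity)
    have hylt : (X : ℝ) ^ ((1 : ℝ) / 12) < (y : ℝ) + 1 := Nat.lt_floor_add_one _
    have hlogy : Real.log X / 12 ≤ Real.log (y + 1) := by
      have h1 : Real.log ((X : ℝ) ^ ((1 : ℝ) / 12)) ≤ Real.log (y + 1) :=
        Real.log_le_log (by positivity) hylt.le
      rw [Real.log_rpow hX0] at h1
      linarith
    have hmain := pair_bound_aux ha hb hab hk X y hy1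
    have hy8 : (y : ℝ) ^ 8 ≤ (X : ℝ) ^ ((2 : ℝ) / 3) := by
      have h1 : (y : ℝ) ^ 8 ≤ ((X : ℝ) ^ ((1 : ℝ) / 12)) ^ 8 := by gcongr
      have h2 : ((X : ℝ) ^ ((1 : ℝ) / 12)) ^ 8 = (X : ℝ) ^ ((2 : ℝ) / 3) := by
        rw [← Real.rpow_natCast, ← Real.rpow_mul hX0.le]
        norm_num
      linarith
    have hy2 : (y : ℝ) ^ 2 ≤ (y : ℝ) ^ 8 := pow_le_pow_right₀ hyr (by norm_num)
    have hinv : (X : ℝ) * (((Nat.totient (a * b) : ℝ) / ((a * b : ℕ) : ℝ)) *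
        (Real.log (y + 1)) ^ 2)⁻¹ ≤
        144 * (((a * b : ℕ) : ℝ) / (Nat.totient (a * b) : ℝ)) * ((X : ℝ) / (Real.log X) ^ 2) := by
      have ht : (0 : ℝ) < Nat.totient (a * b) := by
        exact_mod_cast Nat.totient_pos.mpr (Nat.pos_of_ne_zero hk0)
      have hkk : (0 : ℝ) < ((a * b : ℕ) : ℝ) := by exact_mod_cast Nat.pos_of_ne_zero hk0
      have h1 : (Real.log X / 12) ^ 2 ≤ (Real.log (y + 1)) ^ 2 := by gcongr
      have h2 : (((Nat.totient (a * b) : ℝ) / ((a * b : ℕ) : ℝ)) * (Real.log (y + 1)) ^ 2)⁻¹ ≤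
          (((Nat.totient (a * b) : ℝ) / ((a * b : ℕ) : ℝ)) * (Real.log X / 12) ^ 2)⁻¹ := by
        gcongr
      calc (X : ℝ) * (((Nat.totient (a * b) : ℝ) / ((a * b : ℕ) : ℝ)) *
            (Real.log (y + 1)) ^ 2)⁻¹ ≤ (X : ℝ) * (((Nat.totient (a * b) : ℝ) /
            ((a * b : ℕ) : ℝ)) * (Real.log X / 12) ^ 2)⁻¹ := by gcongr
        _ = _ := by
            field_simp
            norm_num
    calc (((Finset.Icc 1 X).filter (fun m : ℕ => m.Prime ∧ (a * m + b).Prime)).card : ℝ)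
        ≤ _ := hmain
      _ ≤ 144 * (((a * b : ℕ) : ℝ) / (Nat.totient (a * b) : ℝ)) * ((X : ℝ) / (Real.log X) ^ 2) +
            2 * (36 * ((X : ℝ) / (Real.log X) ^ 2)) := by linarith
      _ ≤ 144 * (((a * b : ℕ) : ℝ) / (Nat.totient (a * b) : ℝ)) * ((X : ℝ) / (Real.log X) ^ 2) +
            2 * (36 * ((X : ℝ) / (Real.log X) ^ 2)) *
              (((a * b : ℕ) : ℝ) / (Nat.totient (a * b) : ℝ)) := by
          have : 2 * (36 * ((X : ℝ) / (Real.log X) ^ 2)) * 1 ≤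
            2 * (36 * ((X : ℝ) / (Real.log X) ^ 2)) *
              (((a * b : ℕ) : ℝ) / (Nat.totient (a * b) : ℝ)) := by gcongr
          linarith
      _ = _ := by ring
  · -- `a b` odd: at most the prime 2
    have hodd := Nat.odd_mul.mp hk
    have hsub : (Finset.Icc 1 X).filter (fun m : ℕ => m.Prime ∧ (a * m + b).Prime) ⊆ {2} := by
      intro m hm
      rw [Finset.mem_filter] at hm
      rw [Finset.mem_singleton]
      by_contra hne
      have hmodd : Odd m := hm.2.1.odd_of_ne_two hne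
      have heven : Even (a * m + b) := (hodd.1.mul hmodd).add_odd hodd.2
      have h2 : a * m + b = 2 := (hm.2.2.even_iff).mp heven
      have h3 : 2 ≤ m := hm.2.1.two_le
      have h4 : m ≤ a * m := Nat.le_mul_of_pos_left m ha
      omega
    have hcard : (((Finset.Icc 1 X).filter (fun m : ℕ => m.Prime ∧ (a * m + b).Prime)).card : ℝ)
        ≤ 1 := by
      have := Finset.card_le_card hsub
      rw [Finset.card_singleton] at this
      exact_mod_cast this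
    calc _ ≤ (1 : ℝ) := hcard
      _ ≤ (X : ℝ) ^ ((2 : ℝ) / 3) := hX23
      _ ≤ 36 * ((X : ℝ) / (Real.log X) ^ 2) := hL
      _ ≤ 216 * 1 * ((X : ℝ) / (Real.log X) ^ 2) := by nlinarith
      _ ≤ _ := by gcongr

/-- The case `a = 1`: pairs of primes with difference `h`. -/
theorem pair_bound_shift {h : ℕ} (hh : 0 < h) {X : ℕ} (hX : 2 ≤ X) :
    (((Finset.Icc 1 X).filter (fun m : ℕ => m.Prime ∧ (m + h).Prime)).card : ℝ) ≤
      216 * ((h : ℝ) / (Nat.totient h : ℝ)) * ((X : ℝ) / (Real.log X) ^ 2) := by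
  have := pair_bound (a := 1) (b := h) one_pos hh (Nat.coprime_one_left h) hX
  simpa only [one_mul] using this

end Pool.Agent.Work.Sieve
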